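import Pool.Agent.Q45.ML.Conseq
import Pool.Agent.Q12.WN.Pi

/-!
# Mittag-Leffler means of the logarithm of a quotient of entire functions

`U = V exp (∑ d_i e^{-s lam_i})` for `Re s > 1`, `V` without zeros on `(c, ∞)`. The means
`∑ d_i e^{-c lam_i} / Γ(1 + lam_i / T)` are smaller in absolute value than `exp (exp (y T))` for all `y > b - c` if
`U` has no real zeros larger than `b`, and are otherwise smaller than `-exp (exp (y T))` for some `y > b - c`.
-/

set_option autoImplicit false

namespace Pool.Agent.Q222.RK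

open Filter Topology Set Asymptotics MeasureTheory
open Pool.Agent.W189.ML Pool.Agent.W189.LC Pool.Agent.Q45.ML
open Pool.Agent.W189.TP (DS)
open Pool.Agent.Q12.WN (ord_quot)

/-- `exp (exp (y T))` -/
noncomputable def ee (y T : ℝ) : ℝ := Real.exp (Real.exp (y * T))

theorem ee_pos (y T : ℝ) : 0 < ee y T := Real.exp_pos _

theorem one_le_ee (y T : ℝ) : 1 ≤ ee y T := Real.one_le_exp (Real.exp_pos _).le

theorem ee_mono {y z T : ℝ} (hT : 0 ≤ T) (h : y ≤ z) : ee y T ≤ ee z T :=
  Real.exp_le_exp.2 (Real.exp_le_exp.2 (mul_le_mul_of_nonneg_right h hT))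

theorem ee_dom {y z : ℝ} (hyz : y < z) (hz : 0 < z) (A : ℝ) :
    ∀ᶠ T : ℝ in atTop, A * (1 + T) * (Real.exp (Real.exp (y * T + 1)) + 1) ≤ ee z T := by
  have h1 : ∀ᶠ T : ℝ in atTop, 2 ≤ Real.exp ((z - y) * T - 1) := by
    have h2 : Tendsto (fun T : ℝ => (z - y) * T - 1) atTop atTop :=
      tendsto_atTop_add_const_right _ _ (tendsto_id.const_mul_atTop (by linarith))
    exact (Real.tendsto_exp_atTop.comp h2).eventually_ge_atTop 2
  filter_upwards [h1, eventually_ge_atTop (4 / z ^ 2), eventually_ge_atTop (8 * |A| + 2)] with T h3 h4 h5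
  have hA : 0 ≤ |A| := abs_nonneg A
  have hT : 2 ≤ T := by linarith
  have e1 : Real.exp (y * T + 1) * Real.exp ((z - y) * T - 1) = Real.exp (z * T) := by
    rw [← Real.exp_add]
    congr 1
    ring
  have h6 : 2 * Real.exp (y * T + 1) ≤ Real.exp (z * T) := by
    rw [← e1]
    have := Real.exp_pos (y * T + 1)
    nlinarith
  have h7 : 2 * T ≤ Real.exp (z * T) := by
    have h8 := Real.quadratic_le_exp_of_nonneg (x := z * T) (by positivity)
    have h9 : 4 ≤ z ^ 2 * T := by
      rw [div_le_iff₀ (by positivity)] at h4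
      linarith
    have h10 : (z * T) ^ 2 = (z ^ 2 * T) * T := by ring
    have h11 : 0 ≤ z * T := by positivity
    nlinarith
  have h8 : 2 * |A| * (1 + T) ≤ Real.exp T := by
    have h9 := Real.quadratic_le_exp_of_nonneg (x := T) (by linarith)
    nlinarith
  have h9 : Real.exp (Real.exp (y * T + 1)) * Real.exp T ≤ ee z T := by
    unfold ee
    rw [← Real.exp_add]
    exact Real.exp_le_exp.2 (by linarith)
  have h10 : 1 ≤ Real.exp (Real.exp (y * T + 1)) := Real.one_le_exp (Real.exp_pos _).le
  calc A * (1 + T) * (Real.exp (Real.exp (y * T + 1)) + 1)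
      ≤ |A| * (1 + T) * (2 * Real.exp (Real.exp (y * T + 1))) := by
        refine mul_le_mul (mul_le_mul_of_nonneg_right (le_abs_self A) (by linarith)) (by linarith) (by linarith)
          (by positivity)
    _ = Real.exp (Real.exp (y * T + 1)) * (2 * |A| * (1 + T)) := by ring
    _ ≤ Real.exp (Real.exp (y * T + 1)) * Real.exp T := by gcongr
    _ ≤ _ := h9

/-- a variant -/
theorem ee_dom' {y z : ℝ} (hyz : y < z) (hz : 0 < z) (A B : ℝ) :
    ∀ᶠ T : ℝ in atTop, A * ee y T + B * (1 + T) ≤ ee z T := by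
  filter_upwards [ee_dom hyz hz (|A| + |B|), eventually_ge_atTop 0] with T h1 hT
  refine le_trans ?_ h1
  have h2 : ee y T ≤ Real.exp (Real.exp (y * T + 1)) :=
    Real.exp_le_exp.2 (Real.exp_le_exp.2 (by linarith))
  have h3 := ee_pos y T
  have hA := le_abs_self A
  have hB := le_abs_self B
  have hA0 := abs_nonneg A
  have hB0 := abs_nonneg B
  have h4 : 1 ≤ Real.exp (Real.exp (y * T + 1)) := Real.one_le_exp (Real.exp_pos _).le
  have h5 : A * ee y T ≤ |A| * (1 + T) * (Real.exp (Real.exp (y * T + 1)) + 1) := by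
    calc A * ee y T ≤ |A| * ee y T := by gcongr
      _ ≤ |A| * Real.exp (Real.exp (y * T + 1)) := by gcongr
      _ ≤ |A| * (1 + T) * (Real.exp (Real.exp (y * T + 1)) + 1) := by
        have : |A| ≤ |A| * (1 + T) := by nlinarith
        refine mul_le_mul this (by linarith) (by linarith) (by positivity)
  have h6 : B * (1 + T) ≤ |B| * (1 + T) * (Real.exp (Real.exp (y * T + 1)) + 1) := by
    have h7 : B * (1 + T) ≤ |B| * (1 + T) := by gcongr
    have h8 : 0 ≤ |B| * (1 + T) := by positivity
    nlinarith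
  have h7 : (|A| + |B|) * (1 + T) * (Real.exp (Real.exp (y * T + 1)) + 1) =
      |A| * (1 + T) * (Real.exp (Real.exp (y * T + 1)) + 1) + |B| * (1 + T) * (Real.exp (Real.exp (y * T + 1)) + 1) := by
    ring
  linarith

theorem grow_le {y : ℝ} (hy : 0 ≤ y) : grow y ≤ y * (Real.exp (Real.exp (y + 1)) + 1) := by
  have h1 : grow y ≤ ∫ u in Ioi (0 : ℝ), (y * (Real.exp (Real.exp (y + 1)) + 1)) * Real.exp (-u) := by
    refine setIntegral_mono_on (gi_int hy) ((integrableOn_exp_neg_Ioi 0).const_mul _) measurableSet_Ioi ?_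
    intro u hu
    exact gi_le hy hu
  refine h1.trans (le_of_eq ?_)
  rw [integral_const_mul, integral_exp_neg_Ioi_zero, mul_one]

variable {ι : Type} {lam d : ι → ℝ}

/-- the terms of the mean -/
noncomputable def tm (lam d : ι → ℝ) (c T : ℝ) (i : ι) : ℝ :=
  d i * Real.exp (-(c * lam i)) / Real.Gamma (1 + lam i / T)

theorem tm_le (hlam : ∀ i, 0 ≤ lam i) {c z : ℝ} (hz : 0 ≤ z) {T : ℝ} (hT : 0 < T) (i : ι) :
    |tm lam d c T i| ≤ (ee z T + 1) * (|d i| * Real.exp (-((c + z) * lam i))) := by
  have h0 : 0 ≤ lam i / T := div_nonneg (hlam i) hT.le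
  have h1 := om_le (a := z * T) (by positivity) h0
  have hG : 0 < Real.Gamma (1 + lam i / T) := Real.Gamma_pos_of_pos (by linarith)
  have h2 : z * T * (lam i / T) = z * lam i := by field_simp
  rw [h2] at h1
  have e1 : |tm lam d c T i| = |d i| * Real.exp (-(c * lam i)) * om (lam i / T) := by
    unfold tm om
    rw [abs_div, abs_mul, Real.abs_exp, abs_of_pos hG, div_eq_mul_inv]
  rw [e1]
  calc |d i| * Real.exp (-(c * lam i)) * om (lam i / T)
      ≤ |d i| * Real.exp (-(c * lam i)) * ((ee z T + 1) * Real.exp (-(z * lam i))) := by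
        gcongr
        exact h1
    _ = (ee z T + 1) * (|d i| * (Real.exp (-(c * lam i)) * Real.exp (-(z * lam i)))) := by ring
    _ = _ := by
        rw [← Real.exp_add]
        congr 3
        ring

theorem tm_summable (hlam : ∀ i, 0 ≤ lam i) {c z : ℝ} (hz : 0 ≤ z)
    (hs : Summable fun i => |d i| * Real.exp (-((c + z) * lam i))) {T : ℝ} (hT : 0 < T) :
    Summable fun i => |tm lam d c T i| :=
  Summable.of_nonneg_of_le (fun _ => abs_nonneg _) (fun i => tm_le hlam hz hT i) (hs.mul_left _)

theorem tm_tsum_le (hlam : ∀ i, 0 ≤ lam i) {c z : ℝ} (hz : 0 ≤ z)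
    (hs : Summable fun i => |d i| * Real.exp (-((c + z) * lam i))) {T : ℝ} (hT : 0 < T) :
    ∑' i, |tm lam d c T i| ≤ (ee z T + 1) * ∑' i, |d i| * Real.exp (-((c + z) * lam i)) := by
  rw [← tsum_mul_left]
  exact (tm_summable hlam hz hs hT).tsum_le_tsum (fun i => tm_le hlam hz hT i) (hs.mul_left _)

theorem tm_summable' (hlam : ∀ i, 0 ≤ lam i) (hd : ∀ t : ℝ, 1 < t → Summable fun i => |d i| * Real.exp (-(t * lam i)))
    (c : ℝ) {T : ℝ} (hT : 0 < T) : Summable fun i => |tm lam d c T i| := by
  refine tm_summable hlam (z := |2 - c|) (abs_nonneg _) (hd _ ?_) hT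
  have := le_abs_self (2 - c)
  linarith

theorem cont_quot (hlam : ∀ i, 0 ≤ lam i)
    (hd : ∀ t : ℝ, 1 < t → Summable fun i => |d i| * Real.exp (-(t * lam i))) {U V : ℂ → ℂ} (hU : Differentiable ℂ U)
    (hV : Differentiable ℂ V) (hV1 : ∀ s : ℂ, 1 < s.re → V s ≠ 0)
    (hUV : ∀ s : ℂ, 1 < s.re → U s = V s * Complex.exp (DS d lam s)) {c : ℝ} (hc : c < 1) :
    Cont lam d c 1 (fun s => U s / V s) := by
  refine ⟨hc, hlam, hd, fun x _ _ => (hU.analyticAt x).meromorphicAt.div (hV.analyticAt x).meromorphicAt,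
    fun s hs => ?_⟩
  rw [hUV s hs, mul_comm, mul_div_assoc, div_self (hV1 s hs), mul_one]
  rfl

/-- **The dichotomy.** -/
theorem crit [Countable ι] (hlam : ∀ i, 0 ≤ lam i)
    (hd : ∀ t : ℝ, 1 < t → Summable fun i => |d i| * Real.exp (-(t * lam i))) {U V : ℂ → ℂ} (hU : Differentiable ℂ U)
    (hV : Differentiable ℂ V) (hV1 : ∀ s : ℂ, 1 < s.re → V s ≠ 0)
    (hUV : ∀ s : ℂ, 1 < s.re → U s = V s * Complex.exp (DS d lam s)) {c : ℝ} (hc : c < 1)
    (hVx : ∀ x : ℝ, c < x → V (x : ℂ) ≠ 0) {b : ℝ} (hcb : c ≤ b) :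
    List.TFAE [∀ x : ℝ, b < x → U (x : ℂ) ≠ 0,
      ∀ y : ℝ, b - c < y → ∀ᶠ T : ℝ in atTop, |∑' i, tm lam d c T i| ≤ ee y T,
      ∀ y : ℝ, b - c < y → ∃ᶠ T : ℝ in atTop, -ee y T ≤ ∑' i, tm lam d c T i] := by
  have H := cont_quot hlam hd hU hV hV1 hUV hc
  tfae_have 1 → 2 := by
    intro h1 y hy
    have hy0 : 0 < y := by linarith
    have hord : ∀ x : ℝ, b < x → meromorphicOrderAt (fun s => U s / V s) (x : ℂ) = 0 := by
      intro x hx
      have h2 : AnalyticAt ℂ (fun s => U s / V s) (x : ℂ) :=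
        (hU.analyticAt _).div (hV.analyticAt _) (hVx x (by linarith))
      rw [h2.meromorphicOrderAt_eq, h2.analyticOrderAt_eq_zero.2 (div_ne_zero (h1 x hx) (hVx x (by linarith)))]
      rfl
    by_cases hz : ∀ σ : ℝ, c < σ → meromorphicOrderAt (fun s => U s / V s) (σ : ℂ) = 0
    · obtain ⟨m, l, -, -, hl, hO⟩ := plain_regular H hz
      obtain ⟨C, hC⟩ := hO.bound
      have h3 := ee_dom' (y := y / 2) (z := y) (by linarith) hy0 0
        (|Real.log l| + |(m : ℝ)| * (1 + |kap|) + |C|)
      filter_upwards [hC, h3, eventually_ge_atTop 1] with T h4 h5 hT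
      rw [zero_mul, zero_add] at h5
      refine le_trans ?_ h5
      have h6 : |plain lam d c T - (Real.log l - m * (Real.log T - kap))| ≤ |C| := by
        rw [← Real.norm_eq_abs]
        refine h4.trans ?_
        rw [Real.norm_eq_abs, abs_of_pos (by positivity : 0 < 1 / T)]
        calc C * (1 / T) ≤ |C| * (1 / T) := by gcongr; exact le_abs_self C
          _ ≤ |C| * 1 := by
              gcongr
              rw [div_le_one (by linarith)]
              exact hT
          _ = |C| := mul_one _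
      have h7 : |Real.log T| ≤ T := by
        rw [abs_of_nonneg (Real.log_nonneg hT)]
        exact (Real.log_le_sub_one_of_pos (by linarith)).trans (by linarith)
      have h8 : |(m : ℝ) * (Real.log T - kap)| ≤ |(m : ℝ)| * (T + |kap|) := by
        rw [abs_mul]
        gcongr
        refine (abs_sub _ _).trans ?_
        gcongr
      have h9 : |∑' i, tm lam d c T i| ≤ |C| + (|Real.log l| + |(m : ℝ)| * (T + |kap|)) := by
        have e1 : (∑' i, tm lam d c T i) = (plain lam d c T - (Real.log l - m * (Real.log T - kap))) +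
            (Real.log l - m * (Real.log T - kap)) := by
          rw [sub_add_cancel]
          rfl
        rw [e1]
        refine (abs_add_le _ _).trans (add_le_add h6 ((abs_sub _ _).trans ?_))
        gcongr
      refine h9.trans ?_
      have p1 := abs_nonneg (Real.log l)
      have p2 := abs_nonneg (m : ℝ)
      have p3 := abs_nonneg kap
      have p4 := abs_nonneg C
      nlinarith [mul_nonneg p2 p3, mul_nonneg (mul_nonneg p2 p3) (by linarith : (0 : ℝ) ≤ T),
        mul_nonneg p1 (by linarith : (0 : ℝ) ≤ T), mul_nonneg p4 (by linarith : (0 : ℝ) ≤ T)]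
    · push Not at hz
      obtain ⟨β, m, hβ, hβ1, hm0, hm, -, hlim, -⟩ := plain_singular H hz
      have hβb : β ≤ b := by
        by_contra h3
        push Not at h3
        rw [hord β h3] at hm
        apply hm0
        have : (0 : ℤ) = m := by exact_mod_cast hm
        exact this.symm
      have h3 : ∀ᶠ T : ℝ in atTop, |plain lam d c T / grow ((β - c) * T)| ≤ |(m : ℝ)| + 1 := by
        have h4 := hlim.abs
        rw [abs_neg] at h4
        exact h4.eventually (eventually_le_nhds (lt_add_one _))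
      have h4 : ∀ᶠ T : ℝ in atTop, 0 < grow ((β - c) * T) := by
        have h5 : Tendsto (fun T : ℝ => (β - c) * T) atTop atTop := tendsto_id.const_mul_atTop (by linarith)
        filter_upwards [h5.eventually_ge_atTop 5] with T hT
        exact (Real.exp_pos _).trans_le (grow_ge hT)
      filter_upwards [h3, h4, ee_dom (y := β - c) (z := y) (by linarith) hy0 ((|(m : ℝ)| + 1) * (β - c)),
        eventually_ge_atTop 0] with T h5 h6 h7 hT
      refine le_trans ?_ h7
      rw [abs_div, abs_of_pos h6, div_le_iff₀ h6] at h5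
      have h8 : 0 ≤ (β - c) * T := mul_nonneg (by linarith) hT
      calc |∑' i, tm lam d c T i| = |plain lam d c T| := rfl
        _ ≤ (|(m : ℝ)| + 1) * grow ((β - c) * T) := h5
        _ ≤ (|(m : ℝ)| + 1) * ((β - c) * T * (Real.exp (Real.exp ((β - c) * T + 1)) + 1)) := by
            gcongr
            exact grow_le h8
        _ = (|(m : ℝ)| + 1) * (β - c) * T * (Real.exp (Real.exp ((β - c) * T + 1)) + 1) := by ring
        _ ≤ (|(m : ℝ)| + 1) * (β - c) * (1 + T) * (Real.exp (Real.exp ((β - c) * T + 1)) + 1) := by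
            have : 0 ≤ (|(m : ℝ)| + 1) * (β - c) := mul_nonneg (by positivity) (by linarith)
            gcongr
            linarith
  tfae_have 2 → 3 := by
    intro h y hy
    refine (h y hy).frequently.mono fun T hT => ?_
    exact (abs_le.1 hT).1
  tfae_have 3 → 1 := by
    intro h x hx h0
    have hx0 := (ord_quot hU hV (hVx x (by linarith))).2 h0
    obtain ⟨β, m, hβ, hβ1, hm0, hm, hright, hlim, hlarge⟩ := plain_singular H ⟨x, by linarith, hx0⟩
    have hxβ : x ≤ β := by
      by_contra h1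
      push Not at h1
      exact hx0 (hright x h1)
    have hmn : 0 ≤ m := by
      have h1 := (ord_quot hU hV (hVx β (by linarith))).1
      rw [hm] at h1
      exact_mod_cast h1
    have hm1 : (0 : ℝ) < m := by exact_mod_cast lt_of_le_of_ne hmn (Ne.symm hm0)
    have h1 : ∀ᶠ T : ℝ in atTop, plain lam d c T / grow ((β - c) * T) < 0 :=
      hlim.eventually (gt_mem_nhds (by linarith))
    have h2 : ∀ᶠ T : ℝ in atTop, 0 < grow ((β - c) * T) := by
      have h5 : Tendsto (fun T : ℝ => (β - c) * T) atTop atTop := tendsto_id.const_mul_atTop (by linarith)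
      filter_upwards [h5.eventually_ge_atTop 5] with T hT
      exact (Real.exp_pos _).trans_le (grow_ge hT)
    obtain ⟨y, hy1, hy2⟩ := exists_between (show b - c < β - c by linarith)
    obtain ⟨y', hy3, hy4⟩ := exists_between hy2
    have h3 := hlarge y' hy4
    obtain ⟨T, h4, h5, h6, h7, h8, h9⟩ := ((h y hy1).and_eventually (h1.and (h2.and (h3.and
      ((ee_dom' hy3 (by linarith) 2 0).and (eventually_ge_atTop 0)))))).exists
    have h10 : plain lam d c T < 0 := by
      by_contra h11
      push Not at h11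
      have := div_nonneg h11 h6.le
      linarith
    rw [abs_of_neg h10] at h7
    have h11 : -ee y T ≤ plain lam d c T := h4
    have h12 := ee_pos y T
    have h13 : ee y' T = Real.exp (Real.exp (y' * T)) := rfl
    rw [← h13] at h7
    linarith
  tfae_finish

end Pool.Agent.Q222.RK
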