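import Pool.Agent.Q222.RK.RS

/-!
# The means in explicit form
-/

set_option autoImplicit false

namespace Pool.Agent.Q222.RK

open Filter Topology Set Asymptotics MeasureTheory
open Pool.Agent.W189.TP (DS PS)
open Pool.Agent.Q12.WN

/-- the weight `1 / (k x^{k c} Γ(1 + k log x / T))` of the power `x ^ k` -/
noncomputable def wt (c T x : ℝ) (k : ℕ) : ℝ :=
  1 / ((k : ℝ) * x ^ ((k : ℝ) * c) * Real.Gamma (1 + (k : ℝ) * Real.log x / T))

variable {P : Type} {q : P → ℝ} {ι : Type*} [Fintype ι] {n : ℕ}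

theorem sum_Icc_range (f : ℕ → ℝ) (N : ℕ) : ∑ k ∈ Finset.Icc 1 N, f k = ∑ k ∈ Finset.range N, f (k + 1) := by
  induction N with
  | zero => simp
  | succ N ih => rw [Finset.sum_Icc_succ_top (by omega), ih, Finset.sum_range_succ]

theorem tm_inl (hq : PSys q) (R : ℕ) (w : P → ℕ → ℝ) (α : P → Fin n → ℂ) (c T : ℝ) (v : P) (k : ℕ) :
    tm (LG (q2 q)) (d2 R w α) c T (Sum.inl v, k) = w v k * ‖∑ i, α v i ^ (k + 1)‖ ^ 2 * wt c T (q v) (k + 1) := by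
  have h0 := hq.pos v
  have e1 : q v ^ ((((k + 1 : ℕ) : ℝ)) * c) = Real.exp (c * (((k : ℝ) + 1) * Real.log (q v))) := by
    rw [Real.rpow_def_of_pos h0]
    congr 1
    push_cast
    ring
  unfold wt
  rw [e1]
  show w v k * ‖∑ i, α v i ^ (k + 1)‖ ^ 2 / ((k : ℝ) + 1) * Real.exp (-(c * (((k : ℝ) + 1) * Real.log (q v)))) /
    Real.Gamma (1 + ((k : ℝ) + 1) * Real.log (q v) / T) = _
  rw [Real.exp_neg]
  push_cast
  have h1 := Real.exp_ne_zero (c * (((k : ℝ) + 1) * Real.log (q v)))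
  have h2 : (k : ℝ) + 1 ≠ 0 := by positivity
  by_cases hG : Real.Gamma (1 + ((k : ℝ) + 1) * Real.log (q v) / T) = 0
  · rw [hG]
    simp
  · field_simp

theorem tm_inr (R : ℕ) (w : P → ℕ → ℝ) (α : P → Fin n → ℂ) (c T : ℝ) (p : PS ∅) (k : ℕ) :
    tm (LG (q2 q)) (d2 R w α) c T (Sum.inr p, k) = -((R : ℝ) * wt c T ((p.1 : ℕ) : ℝ) (k + 1)) := by
  have h0 : (0 : ℝ) < ((p.1 : ℕ) : ℝ) := by exact_mod_cast p.1.2.pos
  have e1 : ((p.1 : ℕ) : ℝ) ^ ((((k + 1 : ℕ) : ℝ)) * c) = Real.exp (c * (((k : ℝ) + 1) * Real.log ((p.1 : ℕ) : ℝ))) := by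
    rw [Real.rpow_def_of_pos h0]
    congr 1
    push_cast
    ring
  unfold wt
  rw [e1]
  show -(R : ℝ) / ((k : ℝ) + 1) * Real.exp (-(c * (((k : ℝ) + 1) * Real.log ((p.1 : ℕ) : ℝ)))) /
    Real.Gamma (1 + ((k : ℝ) + 1) * Real.log ((p.1 : ℕ) : ℝ) / T) = _
  rw [Real.exp_neg]
  push_cast
  have h1 := Real.exp_ne_zero (c * (((k : ℝ) + 1) * Real.log ((p.1 : ℕ) : ℝ)))
  have h2 : (k : ℝ) + 1 ≠ 0 := by positivity
  by_cases hG : Real.Gamma (1 + ((k : ℝ) + 1) * Real.log ((p.1 : ℕ) : ℝ) / T) = 0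
  · rw [hG]
    simp
  · field_simp

theorem wn_explicit (hq : PSys q) (R : ℕ) {z : ι → P → ℂ} {w : P → ℕ → ℝ} (hz : Wt z w) (α : P → Fin n → ℂ)
    (hsum : ∀ σ : ℝ, 1 < σ → Summable fun x : P × ℕ =>
      ‖∑ i, α x.1 i ^ (x.2 + 1)‖ ^ 2 / ((x.2 : ℝ) + 1) * (q x.1 ^ (-σ)) ^ (x.2 + 1)) (c : ℝ) (N : ℕ) {T : ℝ}
    (hT : 0 < T) :
    (Summable fun v : P => ∑ k ∈ Finset.range N, w v k * ‖∑ i, α v i ^ (k + 1)‖ ^ 2 * wt c T (q v) (k + 1)) ∧
    (Summable fun p : Nat.Primes => (R : ℝ) * ∑ k ∈ Finset.Icc 1 N, wt c T ((p : ℕ) : ℝ) k) ∧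
    WN (q2 q) (d2 R w α) c N T =
      (∑' v : P, ∑ k ∈ Finset.range N, w v k * ‖∑ i, α v i ^ (k + 1)‖ ^ 2 * wt c T (q v) (k + 1)) -
        R * ∑' p : Nat.Primes, ∑ k ∈ Finset.Icc 1 N, wt c T ((p : ℕ) : ℝ) k := by
  have hsd : ∀ t : ℝ, 1 < t → Summable fun y : (P ⊕ PS ∅) × ℕ => |d2 R w α y| * Real.exp (-(t * LG (q2 q) y)) :=
    fun t ht => d2_summ R hq hz hsum ht
  set f : (P ⊕ PS ∅) × ℕ → ℝ := fun x => if x.2 < N then tm (LG (q2 q)) (d2 R w α) c T x else 0 with hf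
  have h1 : Summable f := wn_summable (psys2 hq) hsd c N hT
  have h2 : Summable fun y : P × ℕ => f (Sum.inl y.1, y.2) :=
    h1.comp_injective (i := fun y : P × ℕ => ((Sum.inl y.1, y.2) : (P ⊕ PS ∅) × ℕ)) fun a b hab => by
      have h3 := Prod.mk.inj hab
      exact Prod.ext (Sum.inl_injective h3.1) h3.2
  have h3 : Summable fun y : PS ∅ × ℕ => f (Sum.inr y.1, y.2) :=
    h1.comp_injective (i := fun y : PS ∅ × ℕ => ((Sum.inr y.1, y.2) : (P ⊕ PS ∅) × ℕ)) fun a b hab => by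
      have h3 := Prod.mk.inj hab
      exact Prod.ext (Sum.inr_injective h3.1) h3.2
  have h4 : ∑' y, f y = ∑' y : P × ℕ, f (Sum.inl y.1, y.2) + ∑' y : PS ∅ × ℕ, f (Sum.inr y.1, y.2) := by
    rw [← (Equiv.sumProdDistrib P (PS ∅) ℕ).symm.tsum_eq]
    exact Summable.tsum_sum (f := fun x => f ((Equiv.sumProdDistrib P (PS ∅) ℕ).symm x)) h2 h3
  have inner : ∀ g : ℕ → ℝ, (∑' k : ℕ, if k < N then g k else 0) = ∑ k ∈ Finset.range N, g k := by
    intro g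
    rw [tsum_eq_sum (s := Finset.range N)]
    · refine Finset.sum_congr rfl fun k hk => ?_
      rw [if_pos (Finset.mem_range.1 hk)]
    · intro k hk
      rw [if_neg fun h => hk (Finset.mem_range.2 h)]
  have e5 : ∀ v : P, (∑' k : ℕ, f (Sum.inl v, k)) =
      ∑ k ∈ Finset.range N, w v k * ‖∑ i, α v i ^ (k + 1)‖ ^ 2 * wt c T (q v) (k + 1) := by
    intro v
    rw [← inner]
    refine tsum_congr fun k => ?_
    rw [hf]
    simp only [tm_inl hq]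
  have e6 : ∀ p : PS ∅, (∑' k : ℕ, f (Sum.inr p, k)) = -((R : ℝ) * ∑ k ∈ Finset.Icc 1 N, wt c T ((p.1 : ℕ) : ℝ) k) := by
    intro p
    rw [sum_Icc_range, Finset.mul_sum, ← Finset.sum_neg_distrib, ← inner]
    refine tsum_congr fun k => ?_
    rw [hf]
    simp only [tm_inr]
  have s5 : Summable fun v : P => ∑' k : ℕ, f (Sum.inl v, k) := h2.prod
  have s6 : Summable fun p : PS ∅ => ∑' k : ℕ, f (Sum.inr p, k) := h3.prod
  simp only [e5] at s5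
  simp only [e6] at s6
  have e : PS ∅ ≃ Nat.Primes := Equiv.subtypeUnivEquiv fun p => Finset.notMem_empty p
  have s7 : Summable fun p : Nat.Primes => (R : ℝ) * ∑ k ∈ Finset.Icc 1 N, wt c T ((p : ℕ) : ℝ) k := by
    have h7 := s6.neg
    simp only [neg_neg] at h7
    rw [← (Equiv.subtypeUnivEquiv (α := Nat.Primes) (p := fun p => p ∉ (∅ : Finset Nat.Primes))
      (fun p => Finset.notMem_empty p)).summable_iff]
    exact h7
  refine ⟨s5, s7, ?_⟩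
  unfold WN
  rw [← hf, h4, h2.tsum_prod, h3.tsum_prod]
  simp only [e5, e6]
  rw [tsum_neg, ← sub_eq_add_neg, ← tsum_mul_left]
  congr 1
  exact (Equiv.subtypeUnivEquiv (α := Nat.Primes) (p := fun p => p ∉ (∅ : Finset Nat.Primes))
      (fun p => Finset.notMem_empty p)).tsum_eq
      (fun p : Nat.Primes => (R : ℝ) * ∑ k ∈ Finset.Icc 1 N, wt c T ((p : ℕ) : ℝ) k)

end Pool.Agent.Q222.RK
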