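import Pool.Agent.Q222.RK.Exp
import Pool.Agent.Q12.WN.NFPi

/-!
# Representations of `GL_n` over number fields: Mittag-Leffler means
-/

set_option autoImplicit false

namespace Pool.Agent.Q222.RK

open Filter Topology Set NumberField IsDedekindDomain
open Pool.Agent.Q12.WN
open Pool.Agent.W189.TP (DS PS)
open Pool.Agent.TH861.GL3 (PL qq two_le_qq summable_qq)

variable {K : Type} [Field K] [NumberField K] {S : Finset (HeightOneSpectrum (𝓞 K))} {n : ℕ}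

/-- `∑_{v ∉ S} ∑_{1 ≤ k ≤ N} w(v, k) |∑_i α_{i,v}^k|² / (k (N v)^{kc} Γ(1 + k log (N v) / T))
- R ∑_p ∑_{1 ≤ k ≤ N} 1 / (k p^{kc} Γ(1 + k log p / T))` -/
noncomputable def meanK (α : PL S → Fin n → ℂ) (w : PL S → ℕ → ℝ) (R : ℕ) (c : ℝ) (N : ℕ) (T : ℝ) : ℝ :=
  (∑' v : PL S, ∑ k ∈ Finset.Icc 1 N, w v k * ‖∑ i, α v i ^ k‖ ^ 2 * wt c T ((qq v.1 : ℕ) : ℝ) k) -
    R * ∑' p : Nat.Primes, ∑ k ∈ Finset.Icc 1 N, wt c T ((p : ℕ) : ℝ) k

/-- `U(s) = (s - 1)^e L^S(s, π × π~ × χ)`, an entire function -/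
def IsTwistL (α : PL S → Fin n → ℂ) (χ : PL S → ℂ) (e : ℕ) (U : ℂ → ℂ) : Prop :=
  Differentiable ℂ U ∧ ∀ s : ℂ, 1 < s.re → U s = (s - 1) ^ e * Complex.exp (logK χ (tr2 α) s)

theorem IsTwistL.tw {α : PL S → Fin n → ℂ} {χ : PL S → ℂ} {e : ℕ} {U : ℂ → ℂ} (h : IsTwistL α χ e U) :
    TwU (fun v : PL S => (qq v.1 : ℝ)) e χ α U := by
  refine ⟨h.1, fun s hs => ?_⟩
  rw [h.2 s hs, logK_eq]
  rfl

theorem nf {r : ℕ} {α : PL S → Fin n → ℂ} {β : HeightOneSpectrum (𝓞 K) → Fin (n ^ 2) → ℂ}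
    {κ : Fin (n ^ 2 * Module.finrank ℚ K) → ℂ} (h : IsobaricRepK S r α β κ)
    {ι : Type*} [Fintype ι] {χ : ι → PL S → ℂ} {e : ι → ℕ} {j₀ : ι} (hj₀ : ∀ v, χ j₀ v = 1)
    (hχ : ∀ j, ((∀ v, χ j v = 1) ∧ e j = r) ∨ (j ≠ j₀ ∧ TwistK α (χ j) (e j)))
    (hw : ∀ (v : PL S) (k : ℕ), ∃ w : ℝ, 0 ≤ w ∧ ∑ j, χ j v ^ (k + 1) = (w : ℂ))
    {c b : ℝ} (hc0 : 0 ≤ c) (hc1 : c < 1) (hcb : c ≤ b) (N : ℕ) (hN : 1 ≤ ((N : ℝ) + 1) * b) :
    ((∀ y : ℝ, b - c < y → ∃ᶠ T : ℝ in atTop, -ee y T ≤ meanK α (fun v k => (∑ j, χ j v ^ k).re) (∑ j, e j) c N T) →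
      (∀ (v : PL S) (i : Fin n), 2 * |Real.logb (qq v.1 : ℝ) ‖α v i‖| ≤ b) ∧
      (∀ v ∈ S, ∀ (i : Fin (n ^ 2)) (x : ℝ), β v i = ((qq v : ℕ) : ℂ) ^ (x : ℂ) → x ≤ b) ∧
      (∀ (j : Fin (n ^ 2 * Module.finrank ℚ K)) (x : ℝ), κ j = -(x : ℂ) → x ≤ b) ∧
      ∀ j U, IsTwistL α (χ j) (e j) U → ∀ x : ℝ, b < x → U (x : ℂ) ≠ 0) ∧
    ((∀ v i, ‖α v i‖ ≤ 1) → (∀ j U, IsTwistL α (χ j) (e j) U → ∀ x : ℝ, b < x → U (x : ℂ) ≠ 0) →
      ∀ y : ℝ, b - c < y → ∀ᶠ T : ℝ in atTop,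
        -ee y T ≤ meanK α (fun v k => (∑ j, χ j v ^ k).re) (∑ j, e j) c N T) := by
  have : Countable (HeightOneSpectrum (𝓞 K)) := Pool.Agent.TH861.GL3.countable_primes K
  have hb0 : 0 < b := by
    by_contra h0
    push Not at h0
    have hN0 : (0 : ℝ) ≤ N := N.cast_nonneg
    nlinarith
  obtain ⟨G, Ξ, Q, hG, hΞ, hQ, hE, hid⟩ := h.continuation
  choose w0 hw0 hw1 using hw
  have hbd := badK_diff (S := S) β
  have hex : ∀ j, ∃ (U : ℂ → ℂ), IsTwistL α (χ j) (e j) U ∧ (j = j₀ → ∀ s, U s = G s * badK S β s) := by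
    intro j
    rcases hχ j with ⟨hj, he⟩ | ⟨hj, h1⟩
    · have hj' : χ j = fun _ => 1 := funext hj
      refine ⟨fun s => G s * badK S β s, ⟨hG.mul hbd, fun s hs => ?_⟩, fun _ s => rfl⟩
      show G s * badK S β s = _
      rw [hE s hs, hj', he]
    · obtain ⟨U, hU, hU1⟩ := h1.twist
      exact ⟨U, ⟨hU, hU1⟩, fun h2 => absurd h2 hj⟩
  choose U hT hUj using hex
  have hwt : Wt (ι := ι) (fun j (v : PL S) => χ j v) w0 :=
    { le_one := fun j v => by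
        rcases hχ j with ⟨h1, -⟩ | ⟨-, h1⟩
        · rw [h1 v, norm_one]
        · exact h1.norm v
      eq := fun v k => hw1 v k
      nonneg := fun v k => hw0 v k
      triv := ⟨j₀, hj₀⟩ }
  have hsum : ∀ σ : ℝ, 1 < σ → Summable fun x : PL S × ℕ =>
      ‖∑ i, α x.1 i ^ (x.2 + 1)‖ ^ 2 / ((x.2 : ℝ) + 1) * ((fun v : PL S => (qq v.1 : ℝ)) x.1 ^ (-σ)) ^ (x.2 + 1) :=
    fun σ hσ => h.summable σ hσ
  have hmean : ∀ T : ℝ, 0 < T → WN (q2 fun v : PL S => (qq v.1 : ℝ)) (d2 (∑ j, e j) w0 α) c N T =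
      meanK α (fun v k => (∑ j, χ j v ^ k).re) (∑ j, e j) c N T := by
    intro T hT0
    rw [(wn_explicit (psysK S) (∑ j, e j) hwt α hsum c N hT0).2.2]
    unfold meanK
    congr 1
    refine tsum_congr fun v => ?_
    rw [sum_Icc_range]
    refine Finset.sum_congr rfl fun k _ => ?_
    show _ = (∑ j, χ j v ^ (k + 1)).re * _ * _
    rw [hw1 v k, Complex.ofReal_re]
  constructor
  · intro hB
    have hB' : ∀ y : ℝ, b - c < y → ∃ᶠ T : ℝ in atTop,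
        -ee y T ≤ WN (q2 fun v : PL S => (qq v.1 : ℝ)) (d2 (∑ j, e j) w0 α) c N T := fun y hy =>
      ((hB y hy).and_eventually (eventually_gt_atTop 0)).mono fun T hT1 => by
        rw [hmean T hT1.2]
        exact hT1.1
    obtain ⟨k1, k2⟩ := critN (P := PL S) (psysK S) hwt h.ne_zero h.unitary hsum (fun j => (hT j).tw) hc0 hc1 hcb N hN hB'
    refine ⟨k2, fun v hv i x hx => ?_, fun j x hx => ?_, fun j V hV x hx => ?_⟩
    · by_contra h1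
      push Not at h1
      refine k1 j₀ x h1 ?_
      rw [hUj j₀ rfl, badK_zero hv hx, mul_zero]
    · by_contra h1
      push Not at h1
      refine k1 j₀ x h1 ?_
      rw [hUj j₀ rfl, xi_zero hQ hG hΞ r hid hx (by linarith), zero_mul]
    · classical
      have h2 : ∀ i, IsTwistL α (χ i) (e i) (Function.update U j V i) := by
        intro i
        by_cases hij : i = j
        · subst hij
          rw [Function.update_self]
          exact hV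
        · rw [Function.update_of_ne hij]
          exact hT i
      obtain ⟨k3, -⟩ := critN (P := PL S) (psysK S) hwt h.ne_zero h.unitary hsum (fun j => (h2 j).tw) hc0 hc1 hcb N hN hB'
      have := k3 j x hx
      rwa [Function.update_self] at this
  · intro hα hU y hy
    filter_upwards [convN (P := PL S) (psysK S) hwt hα hsum (fun j => (hT j).tw) hc0 hc1 hcb N hN
      (fun j x hx => hU j (U j) (hT j) x hx) y hy, eventually_gt_atTop 0] with T hT1 hT2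
    rw [← hmean T hT2]
    exact hT1

end Pool.Agent.Q222.RK
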