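import Pool.Agent.Q222.RK.Base

/-!
# Mittag-Leffler means of Rankin-Selberg coefficients over prime powers with bounded exponents
-/

set_option autoImplicit false

namespace Pool.Agent.Q222.RK

open Filter Topology Set Asymptotics MeasureTheory
open Pool.Agent.W189.ML Pool.Agent.W189.LC Pool.Agent.Q45.ML
open Pool.Agent.W189.TP (DS PS)
open Pool.Agent.TH949.TX (VV VV_diff VV_real VV_one)
open Pool.Agent.Q12.WN

section trunc

variable {X : Type} {q : X → ℝ}

theorem tail_summ (hq : PSys q) (N : ℕ) {σ : ℝ} (hσ : 1 < ((N : ℝ) + 1) * σ) :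
    Summable fun x : X × ℕ => |if x.2 < N then (0 : ℝ) else 1| * Real.exp (-(σ * LG q x)) := by
  have hN : (0 : ℝ) ≤ N := N.cast_nonneg
  have hσ0 : 0 < σ := by
    by_contra h
    push Not at h
    nlinarith
  set r : ℝ := (2 : ℝ) ^ (-σ) with hr
  have hr0 : 0 < r := by positivity
  have hr1 : r < 1 := Real.rpow_lt_one_of_one_lt_of_neg (by norm_num) (by linarith)
  have h1 := ((hq.summ (((N : ℝ) + 1) * σ) hσ).mul_right (r ^ N)⁻¹).mul_of_nonneg
    (summable_geometric_of_lt_one hr0.le hr1) (fun v => by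
      have := (hq.pos v).le
      positivity) (fun k => by positivity)
  refine Summable.of_nonneg_of_le (fun x => by positivity) (fun x => ?_) h1
  have hx0 := hq.pos x.1
  split_ifs with hx
  · rw [abs_zero, zero_mul]
    positivity
  · rw [abs_one, one_mul, rexp_LG hq]
    push Not at hx
    obtain ⟨j, hj⟩ := Nat.exists_eq_add_of_le hx
    have h2 : q x.1 ^ (-σ) ≤ r := Real.rpow_le_rpow_of_nonpos (by norm_num) (hq.two_le x.1) (by linarith)
    have h3 : 0 ≤ q x.1 ^ (-σ) := Real.rpow_nonneg hx0.le _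
    have h4 : (q x.1 ^ (-σ)) ^ (N + 1) = q x.1 ^ (-(((N : ℝ) + 1) * σ)) := by
      rw [← Real.rpow_natCast, ← Real.rpow_mul hx0.le]
      congr 1
      push_cast
      ring
    rw [hj, show N + j + 1 = (N + 1) + j by ring, pow_add, h4, pow_add, mul_assoc]
    refine mul_le_mul_of_nonneg_left ?_ (Real.rpow_nonneg hx0.le _)
    rw [inv_mul_cancel_left₀ (pow_pos hr0 N).ne']
    exact pow_le_pow_left₀ h3 h2 j

/-- the mean over the prime powers with exponents at most `N` -/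
noncomputable def WN (q : X → ℝ) (d : X × ℕ → ℝ) (c : ℝ) (N : ℕ) (T : ℝ) : ℝ :=
  ∑' x : X × ℕ, if x.2 < N then tm (LG q) d c T x else 0

theorem wn_summable (hq : PSys q) {d : X × ℕ → ℝ}
    (hds : ∀ t : ℝ, 1 < t → Summable fun x => |d x| * Real.exp (-(t * LG q x))) (c : ℝ) (N : ℕ) {T : ℝ}
    (hT : 0 < T) : Summable fun x : X × ℕ => if x.2 < N then tm (LG q) d c T x else 0 := by
  refine Summable.of_norm_bounded (tm_summable' (LG_nonneg hq) hds c hT) fun x => ?_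
  rw [Real.norm_eq_abs]
  split_ifs
  · exact le_rfl
  · rw [abs_zero]
    exact abs_nonneg _

theorem trunc_le (hq : PSys q) {d : X × ℕ → ℝ} {H : ℝ} (hH : 0 ≤ H) (hd : ∀ x, -d x ≤ H)
    (hds : ∀ t : ℝ, 1 < t → Summable fun x => |d x| * Real.exp (-(t * LG q x))) {c z : ℝ} (hz : 0 ≤ z) (N : ℕ)
    (hN : 1 < ((N : ℝ) + 1) * (c + z)) :
    ∃ C : ℝ, 0 ≤ C ∧ ∀ T : ℝ, 0 < T → WN q d c N T - C * (ee z T + 1) ≤ ∑' x, tm (LG q) d c T x := by
  have h1 := tail_summ hq N hN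
  set dH : X × ℕ → ℝ := fun x => H * if x.2 < N then (0 : ℝ) else 1 with hdH
  have h2 : Summable fun x : X × ℕ => |dH x| * Real.exp (-((c + z) * LG q x)) := by
    refine (h1.mul_left H).congr fun x => ?_
    rw [hdH]
    simp only
    rw [abs_mul, abs_of_nonneg hH, mul_assoc]
  refine ⟨∑' x, |dH x| * Real.exp (-((c + z) * LG q x)), tsum_nonneg fun x => by positivity, fun T hT => ?_⟩
  have h3 := tm_tsum_le (LG_nonneg hq) hz h2 hT
  have h4 := tm_summable (LG_nonneg hq) hz h2 hT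
  have h5 := wn_summable hq hds c N hT
  have h6 : Summable fun x => tm (LG q) d c T x := Summable.of_norm (tm_summable' (LG_nonneg hq) hds c hT)
  have h7 : WN q d c N T - ∑' x, |tm (LG q) dH c T x| ≤ ∑' x, tm (LG q) d c T x := by
    unfold WN
    rw [← h5.tsum_sub h4]
    refine (h5.sub h4).tsum_le_tsum (fun x => ?_) h6
    have hG : 0 < Real.Gamma (1 + LG q x / T) :=
      Real.Gamma_pos_of_pos (by have := div_nonneg (LG_nonneg hq x) hT.le; linarith)
    split_ifs with hx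
    · linarith [abs_nonneg (tm (LG q) dH c T x)]
    · have e1 : tm (LG q) dH c T x = H * Real.exp (-(c * LG q x)) / Real.Gamma (1 + LG q x / T) := by
        unfold tm
        rw [hdH]
        simp only [hx, if_false, mul_one]
      have e2 : 0 ≤ H * Real.exp (-(c * LG q x)) / Real.Gamma (1 + LG q x / T) := by positivity
      rw [e1, abs_of_nonneg e2]
      unfold tm
      rw [zero_sub, ← neg_div, ← neg_mul]
      have h8 : -H ≤ d x := by linarith [hd x]
      gcongr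
  linarith

theorem wn_neg (q : X → ℝ) (d : X × ℕ → ℝ) (c : ℝ) (N : ℕ) (T : ℝ) :
    WN q (fun x => -d x) c N T = -WN q d c N T := by
  unfold WN
  rw [← tsum_neg]
  refine tsum_congr fun x => ?_
  split_ifs
  · unfold tm
    ring
  · rw [neg_zero]

theorem trunc_ge (hq : PSys q) {d : X × ℕ → ℝ} {H : ℝ} (hH : 0 ≤ H) (hd : ∀ x, d x ≤ H)
    (hds : ∀ t : ℝ, 1 < t → Summable fun x => |d x| * Real.exp (-(t * LG q x))) {c z : ℝ} (hz : 0 ≤ z) (N : ℕ)
    (hN : 1 < ((N : ℝ) + 1) * (c + z)) :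
    ∃ C : ℝ, 0 ≤ C ∧ ∀ T : ℝ, 0 < T → (∑' x, tm (LG q) d c T x) - C * (ee z T + 1) ≤ WN q d c N T := by
  obtain ⟨C, hC, h⟩ := trunc_le hq (d := fun x => -d x) hH (fun x => by rw [neg_neg]; exact hd x)
    (fun t ht => (hds t ht).congr fun x => by rw [abs_neg]) hz N hN
  refine ⟨C, hC, fun T hT => ?_⟩
  have h1 := h T hT
  rw [wn_neg] at h1
  have h2 : (∑' x, tm (LG q) (fun x => -d x) c T x) = -∑' x, tm (LG q) d c T x := by
    rw [← tsum_neg]
    refine tsum_congr fun x => ?_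
    unfold tm
    ring
  rw [h2] at h1
  linarith

/-- removing one element of `X` changes the truncated mean by a bounded amount -/
theorem cut_wn (hq : PSys q) {d : X × ℕ → ℝ}
    (hds : ∀ t : ℝ, 1 < t → Summable fun x => |d x| * Real.exp (-(t * LG q x))) (c : ℝ) (N : ℕ) (v : X) :
    ∃ B : ℝ, 0 ≤ B ∧ ∀ T : ℝ, 0 < T → WN q d c N T - B ≤ WN q (cut d v) c N T := by
  classical
  refine ⟨∑ k ∈ Finset.range N, |d (v, k)| * Real.exp (-(c * LG q (v, k))) * (Real.exp 1 + 1),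
    Finset.sum_nonneg fun k _ => by positivity, fun T hT => ?_⟩
  have h1 := wn_summable hq hds c N hT
  have h2 := wn_summable hq (fun t ht => cut_summ v (hds t ht)) c N hT
  have h3 : WN q d c N T - WN q (cut d v) c N T = ∑ k ∈ Finset.range N, tm (LG q) d c T (v, k) := by
    unfold WN
    rw [← h1.tsum_sub h2]
    have h4 : ∑ k ∈ Finset.range N, tm (LG q) d c T (v, k) =
        ∑ x ∈ (Finset.range N).image (fun k => ((v, k) : X × ℕ)), tm (LG q) d c T x := by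
      rw [Finset.sum_image]
      intro a _ b _ hab
      exact (Prod.mk.inj hab).2
    rw [h4, tsum_eq_sum (s := (Finset.range N).image (fun k => ((v, k) : X × ℕ)))]
    · refine Finset.sum_congr rfl fun x hx => ?_
      obtain ⟨k, hk, rfl⟩ := Finset.mem_image.1 hx
      have hk' : k < N := Finset.mem_range.1 hk
      simp only [hk', if_true]
      unfold tm cut
      simp
    · intro x hx
      by_cases hx1 : x.2 < N
      · have hx2 : x.1 ≠ v := by
          rintro rfl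
          exact hx (Finset.mem_image.2 ⟨x.2, Finset.mem_range.2 hx1, rfl⟩)
        simp only [hx1, if_true]
        unfold tm cut
        simp [hx2]
      · simp [hx1]
  have h5 : ∑ k ∈ Finset.range N, tm (LG q) d c T (v, k) ≤
      ∑ k ∈ Finset.range N, |d (v, k)| * Real.exp (-(c * LG q (v, k))) * (Real.exp 1 + 1) := by
    refine Finset.sum_le_sum fun k _ => ?_
    have h0 : 0 ≤ LG q (v, k) / T := div_nonneg (LG_nonneg hq _) hT.le
    have h6 := om_le_const h0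
    have h7 := om_nonneg h0
    have e1 : tm (LG q) d c T (v, k) = d (v, k) * Real.exp (-(c * LG q (v, k))) * om (LG q (v, k) / T) := by
      unfold tm om
      rw [div_eq_mul_inv]
    rw [e1]
    calc d (v, k) * Real.exp (-(c * LG q (v, k))) * om (LG q (v, k) / T)
        ≤ |d (v, k)| * Real.exp (-(c * LG q (v, k))) * om (LG q (v, k) / T) := by
          gcongr
          exact le_abs_self _
      _ ≤ _ := by gcongr
  linarith

end trunc

variable {P : Type} {q : P → ℝ} {ι : Type*} [Fintype ι] {n : ℕ}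

theorem freq_up {f g : ℝ → ℝ} {a : ℝ} (ha : 0 ≤ a) (h : ∀ y : ℝ, a < y → ∃ᶠ T : ℝ in atTop, -ee y T ≤ f T)
    (hg : ∀ z : ℝ, a < z → ∃ C : ℝ, 0 ≤ C ∧ ∀ T : ℝ, 0 < T → f T - C * (ee z T + 1) ≤ g T) :
    ∀ y : ℝ, a < y → ∃ᶠ T : ℝ in atTop, -ee y T ≤ g T := by
  intro y hy
  obtain ⟨z, hz1, hz2⟩ := exists_between hy
  obtain ⟨C, hC, hC1⟩ := hg z hz1
  refine ((h z hz1).and_eventually ((ee_dom' hz2 (by linarith) (1 + C) C).and (eventually_gt_atTop 0))).mono
    fun T hT => ?_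
  obtain ⟨h1, h2, h3⟩ := hT
  have h4 := hC1 T h3
  nlinarith [mul_nonneg hC h3.le]

theorem ev_up {f g : ℝ → ℝ} {a : ℝ} (ha : 0 ≤ a) (h : ∀ y : ℝ, a < y → ∀ᶠ T : ℝ in atTop, -ee y T ≤ f T)
    (hg : ∀ z : ℝ, a < z → ∃ C : ℝ, 0 ≤ C ∧ ∀ T : ℝ, 0 < T → f T - C * (ee z T + 1) ≤ g T) :
    ∀ y : ℝ, a < y → ∀ᶠ T : ℝ in atTop, -ee y T ≤ g T := by
  intro y hy
  obtain ⟨z, hz1, hz2⟩ := exists_between hy
  obtain ⟨C, hC, hC1⟩ := hg z hz1
  filter_upwards [h z hz1, ee_dom' hz2 (by linarith) (1 + C) C, eventually_gt_atTop 0] with T h1 h2 h3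
  have h4 := hC1 T h3
  nlinarith [mul_nonneg hC h3.le]

theorem exists_theta (hq : PSys q) {α : P → Fin n → ℂ} (h0 : ∀ p i, α p i ≠ 0)
    (hu : ∀ p, ∃ τ : Equiv.Perm (Fin n), ∀ i, α p (τ i) = ((starRingEnd ℂ) (α p i))⁻¹) {b : ℝ} {v : P} {i : Fin n}
    (hv : b < 2 * |Real.logb (q v) ‖α v i‖|) : ∃ (i' : Fin n) (θ : ℝ), b < 2 * θ ∧ ‖α v i'‖ = q v ^ θ := by
  have hp0 : (0 : ℝ) < q v := hq.pos v
  have hp1 : (1 : ℝ) < q v := hq.one_lt v
  set t : ℝ := Real.logb (q v) ‖α v i‖ with ht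
  have h0' : 0 < ‖α v i‖ := norm_pos_iff.2 (h0 v i)
  have h1 : q v ^ t = ‖α v i‖ := Real.rpow_logb hp0 hp1.ne' h0'
  rcases le_total 0 t with h2 | h2
  · rw [abs_of_nonneg h2] at hv
    exact ⟨i, t, hv, h1.symm⟩
  · rw [abs_of_nonpos h2] at hv
    obtain ⟨τ, hτ⟩ := hu v
    refine ⟨τ i, -t, hv, ?_⟩
    rw [hτ, norm_inv, RCLike.norm_conj, ← h1, Real.rpow_neg hp0.le]

/-- **One-sided bounds for the means over the prime powers with exponents at most `N`.** -/
theorem critN [Countable P] (hq : PSys q) {z : ι → P → ℂ} {w : P → ℕ → ℝ} (hz : Wt z w)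
    {α : P → Fin n → ℂ} (h0 : ∀ p i, α p i ≠ 0)
    (hu : ∀ p, ∃ τ : Equiv.Perm (Fin n), ∀ i, α p (τ i) = ((starRingEnd ℂ) (α p i))⁻¹)
    (hsum : ∀ σ : ℝ, 1 < σ → Summable fun x : P × ℕ =>
      ‖∑ i, α x.1 i ^ (x.2 + 1)‖ ^ 2 / ((x.2 : ℝ) + 1) * (q x.1 ^ (-σ)) ^ (x.2 + 1)) {e : ι → ℕ} {U : ι → ℂ → ℂ}
    (h : ∀ j, TwU q (e j) (z j) α (U j)) {c : ℝ} (hc0 : 0 ≤ c) (hc1 : c < 1) {b : ℝ} (hcb : c ≤ b) (N : ℕ)
    (hN : 1 ≤ ((N : ℝ) + 1) * b)
    (hB : ∀ y : ℝ, b - c < y → ∃ᶠ T : ℝ in atTop, -ee y T ≤ WN (q2 q) (d2 (∑ j, e j) w α) c N T) :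
    (∀ j (x : ℝ), b < x → U j (x : ℂ) ≠ 0) ∧ ∀ (p : P) (i : Fin n), 2 * |Real.logb (q p) ‖α p i‖| ≤ b := by
  classical
  set R : ℕ := ∑ j, e j with hR
  have hR0 : (0 : ℝ) ≤ R := Nat.cast_nonneg _
  have dU : Differentiable ℂ fun s => ∏ j, U j s := Differentiable.fun_finsetProd fun j _ => (h j).dU
  have dV : Differentiable ℂ fun s => VV ∅ s ^ R := (VV_diff ∅).pow R
  have hVx : ∀ x : ℝ, c < x → (fun s => VV ∅ s ^ R) (x : ℂ) ≠ 0 := fun x hx =>
    pow_ne_zero R (VV_real (by linarith))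
  have hV1 : ∀ s : ℂ, 1 < s.re → (fun s => VV ∅ s ^ R) s ≠ 0 := fun s hs => pow_ne_zero R (VV_one hs)
  have hsd : ∀ t : ℝ, 1 < t → Summable fun y : (P ⊕ PS ∅) × ℕ => |d2 R w α y| * Real.exp (-(t * LG (q2 q) y)) :=
    fun t ht => d2_summ R hq hz hsum ht
  have hUV : ∀ s : ℂ, 1 < s.re → (fun s => ∏ j, U j s) s =
      (fun s => VV ∅ s ^ R) s * Complex.exp (DS (d2 R w α) (LG (q2 q)) s) :=
    fun s hs => assemble2 hq hz hsum h hs
  have hNz : ∀ z : ℝ, b - c < z → 1 < ((N : ℝ) + 1) * (c + z) := fun z hz => by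
    have hN0 : (0 : ℝ) ≤ N := N.cast_nonneg
    nlinarith
  constructor
  · have h1 := ((crit (LG_nonneg (psys2 hq)) hsd dU dV hV1 hUV hc1 hVx hcb).out 2 0).1
      (freq_up (by linarith) hB fun z hz1 =>
        trunc_le (psys2 hq) hR0 (neg_d2_le R hz α) hsd (by linarith) N (hNz z hz1))
    intro j x hx
    exact (Finset.prod_ne_zero_iff.1 (h1 x hx)) j (Finset.mem_univ j)
  · intro v i
    by_contra hv
    push Not at hv
    obtain ⟨i', θ, hθ, hi'⟩ := exists_theta hq h0 hu hv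
    have hp0 : (0 : ℝ) < q v := hq.pos v
    have hp1 : (1 : ℝ) < q v := hq.one_lt v
    set Z : ℂ → ℂ := fun s => Complex.exp (-(s * Real.log (q v))) with hZ
    have hZd : Differentiable ℂ Z := by
      rw [hZ]
      fun_prop
    have hZn : ∀ s : ℂ, 0 < s.re → ‖Z s‖ < 1 := fun s hs => by
      rw [hZ]
      simp only
      rw [norm_Z hq]
      exact Real.rpow_lt_one_of_one_lt_of_neg hp1 (by linarith)
    set zz : ι → ℂ := fun j => z j v with hzz
    have hAd : Differentiable ℂ fun s => LA zz (α v) (Z s) := by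
      unfold LA
      fun_prop
    obtain ⟨j₀, hj₀⟩ := hz.triv
    have hsd' : ∀ t : ℝ, 1 < t → Summable fun y : (P ⊕ PS ∅) × ℕ =>
        |cut (d2 R w α) (Sum.inl v) y| * Real.exp (-(t * LG (q2 q) y)) := fun t ht => cut_summ (Sum.inl v) (hsd t ht)
    obtain ⟨B, hB0, hB1⟩ := cut_wn (psys2 hq) hsd c N (Sum.inl v)
    have hB2 := freq_up (g := fun T => WN (q2 q) (cut (d2 R w α) (Sum.inl v)) c N T) (by linarith) hB fun z hz1 =>
      ⟨B, hB0, fun T hT => by
        have h1 := hB1 T hT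
        have h2 := ee_pos z T
        nlinarith⟩
    have h1 := ((crit (LG_nonneg (psys2 hq)) (d := cut (d2 R w α) (Sum.inl v)) hsd'
      (U := fun s => (∏ j, U j s) * LA zz (α v) (Z s)) (V := fun s => VV ∅ s ^ R) (dU.mul hAd) dV hV1
      (fun s hs => by
        have h1 := local_exp 0 (a := α v) (z := zz) (fun j => hz.le_one j v) (w := w v) (fun k => hz.eq v k)
          (Z := Z s) (hZn s (by linarith)) (fun i => by
            rw [hZ]
            simp only
            rw [norm_Z hq]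
            exact norm_bd hq hsum v i hs)
        rw [pow_zero] at h1
        have h2 := ds_split (L := LG (q2 q)) (d := d2 R w α) (Sum.inl v) (s := s) (by
          refine Summable.of_norm ((hsd s.re hs).congr fun x => ?_)
          rw [norm_mul, Complex.norm_exp, Complex.norm_real, Real.norm_eq_abs]
          congr 2
          rw [Complex.neg_re, Complex.re_mul_ofReal])
        have h3 : ∑' k : ℕ, (d2 R w α (Sum.inl v, k) : ℂ) * Complex.exp (-(s * LG (q2 q) (Sum.inl v, k))) =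
            ∑' k : ℕ, ((w v k * (‖∑ i, α v i ^ (k + 1)‖ ^ 2 - ((0 : ℕ) : ℝ)) / ((k : ℝ) + 1) : ℝ) : ℂ) * Z s ^ (k + 1) := by
          refine tsum_congr fun k => ?_
          rw [cexp_LG, Nat.cast_zero, sub_zero]
          rfl
        rw [h3] at h2
        have h4 := hUV s hs
        simp only at h4
        rw [h4, h2, Complex.exp_add]
        linear_combination (VV ∅ s ^ R * Complex.exp (DS (cut (d2 R w α) (Sum.inl v)) (LG (q2 q)) s)) * h1)
      hc1 hVx hcb).out 2 0).1 (freq_up (by linarith) hB2 fun z hz1 =>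
        trunc_le (psys2 hq) hR0 (fun y => by
          unfold cut
          split_ifs
          · rw [neg_zero]
            exact hR0
          · exact neg_d2_le R hz α y) hsd' (by linarith) N (hNz z hz1))
    refine h1 (2 * θ) hθ ?_
    refine mul_eq_zero_of_right _ ?_
    unfold LA
    refine Finset.prod_eq_zero (Finset.mem_univ j₀) (Finset.prod_eq_zero (Finset.mem_univ (i', i')) ?_)
    simp only
    rw [Complex.mul_conj, Complex.normSq_eq_norm_sq, hi', sub_eq_zero, hzz, hZ]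
    simp only
    rw [hj₀, one_mul, ← Complex.ofReal_mul, ← Complex.ofReal_neg, ← Complex.ofReal_exp, ← Complex.ofReal_mul]
    have e1 : (q v ^ θ) ^ 2 * Real.exp (-(2 * θ * Real.log (q v))) = 1 := by
      rw [Real.rpow_def_of_pos hp0, ← Real.exp_nat_mul, ← Real.exp_add]
      rw [show ((2 : ℕ) : ℝ) * (Real.log (q v) * θ) + -(2 * θ * Real.log (q v)) = 0 by push_cast; ring,
        Real.exp_zero]
    rw [e1]
    simp

/-- the converse, if all parameters have absolute value at most 1 -/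
theorem convN [Countable P] (hq : PSys q) {z : ι → P → ℂ} {w : P → ℕ → ℝ} (hz : Wt z w)
    {α : P → Fin n → ℂ} (hα : ∀ p i, ‖α p i‖ ≤ 1)
    (hsum : ∀ σ : ℝ, 1 < σ → Summable fun x : P × ℕ =>
      ‖∑ i, α x.1 i ^ (x.2 + 1)‖ ^ 2 / ((x.2 : ℝ) + 1) * (q x.1 ^ (-σ)) ^ (x.2 + 1)) {e : ι → ℕ} {U : ι → ℂ → ℂ}
    (h : ∀ j, TwU q (e j) (z j) α (U j)) {c : ℝ} (hc0 : 0 ≤ c) (hc1 : c < 1) {b : ℝ} (hcb : c ≤ b) (N : ℕ)
    (hN : 1 ≤ ((N : ℝ) + 1) * b) (hU : ∀ j (x : ℝ), b < x → U j (x : ℂ) ≠ 0) :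
    ∀ y : ℝ, b - c < y → ∀ᶠ T : ℝ in atTop, -ee y T ≤ WN (q2 q) (d2 (∑ j, e j) w α) c N T := by
  set R : ℕ := ∑ j, e j with hR
  have hR0 : (0 : ℝ) ≤ R := Nat.cast_nonneg _
  have dU : Differentiable ℂ fun s => ∏ j, U j s := Differentiable.fun_finsetProd fun j _ => (h j).dU
  have dV : Differentiable ℂ fun s => VV ∅ s ^ R := (VV_diff ∅).pow R
  have hVx : ∀ x : ℝ, c < x → (fun s => VV ∅ s ^ R) (x : ℂ) ≠ 0 := fun x hx =>
    pow_ne_zero R (VV_real (by linarith))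
  have hV1 : ∀ s : ℂ, 1 < s.re → (fun s => VV ∅ s ^ R) s ≠ 0 := fun s hs => pow_ne_zero R (VV_one hs)
  have hsd : ∀ t : ℝ, 1 < t → Summable fun y : (P ⊕ PS ∅) × ℕ => |d2 R w α y| * Real.exp (-(t * LG (q2 q) y)) :=
    fun t ht => d2_summ R hq hz hsum ht
  have hUV : ∀ s : ℂ, 1 < s.re → (fun s => ∏ j, U j s) s =
      (fun s => VV ∅ s ^ R) s * Complex.exp (DS (d2 R w α) (LG (q2 q)) s) :=
    fun s hs => assemble2 hq hz hsum h hs
  have hNz : ∀ z : ℝ, b - c < z → 1 < ((N : ℝ) + 1) * (c + z) := fun z hz => by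
    have hN0 : (0 : ℝ) ≤ N := N.cast_nonneg
    nlinarith
  have h1 := ((crit (LG_nonneg (psys2 hq)) hsd dU dV hV1 hUV hc1 hVx hcb).out 0 1).1 fun x hx =>
    Finset.prod_ne_zero_iff.2 fun j _ => hU j x hx
  refine ev_up (f := fun T => ∑' x, tm (LG (q2 q)) (d2 R w α) c T x) (by linarith)
    (fun y hy => (h1 y hy).mono fun T hT => (abs_le.1 hT).1) fun z hz1 => ?_
  refine trunc_ge (psys2 hq) (H := (Fintype.card ι : ℝ) * (n : ℝ) ^ 2) (by positivity) ?_ hsd (by linarith) N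
    (hNz z hz1)
  rintro ⟨p | p, k⟩
  · show w p k * ‖∑ i, α p i ^ (k + 1)‖ ^ 2 / ((k : ℝ) + 1) ≤ _
    have h2 : ‖∑ i, α p i ^ (k + 1)‖ ≤ n := by
      refine (norm_sum_le _ _).trans ?_
      calc ∑ i, ‖α p i ^ (k + 1)‖ ≤ ∑ _i : Fin n, (1 : ℝ) := by
            refine Finset.sum_le_sum fun i _ => ?_
            rw [norm_pow]
            exact pow_le_one₀ (norm_nonneg _) (hα p i)
        _ = n := by simp
    have h3 : w p k * ‖∑ i, α p i ^ (k + 1)‖ ^ 2 ≤ (Fintype.card ι : ℝ) * (n : ℝ) ^ 2 := by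
      have := hz.le p k
      have := hz.nonneg p k
      gcongr
    have hk : (0 : ℝ) ≤ k := k.cast_nonneg
    rw [div_le_iff₀ (by linarith)]
    have h4 : 0 ≤ (Fintype.card ι : ℝ) * (n : ℝ) ^ 2 := by positivity
    nlinarith
  · show -(R : ℝ) / ((k : ℝ) + 1) ≤ _
    have h4 : 0 ≤ (Fintype.card ι : ℝ) * (n : ℝ) ^ 2 := by positivity
    have hk : (0 : ℝ) < (k : ℝ) + 1 := by positivity
    have h5 : -(R : ℝ) / ((k : ℝ) + 1) ≤ 0 := by
      rw [neg_div]
      have : 0 ≤ (R : ℝ) / ((k : ℝ) + 1) := by positivity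
      linarith
    linarith

end Pool.Agent.Q222.RK
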